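import Mathlib
import Pool.Agent.Lib_helper59.OmegaDefs
import Pool.Agent.Lib_helper59.OmegaD

set_option autoImplicit false

namespace Pool.Agent.Results.MP_628479_al.OmegaTransverse

open Pool.Agent.Lib_helper59.Omega

/-- The omega involution mod 2 is `n`-transverse for every `n`: `R Iⁿ ∩ S = Iⁿ`. -/
theorem result (n : ℕ) : (Ideal.map S.subtype (I ^ n)).comap S.subtype = I ^ n :=
  transverse n

end Pool.Agent.Results.MP_628479_al.OmegaTransverse
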